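import Pool.Agent.Lib.MP_7fb13b_lc.UP.Main

/-!
# Fourier matrices of every size in `O(n log n)` two-coordinate unitaries

There is an absolute constant `C` such that for every `n ≥ 2` the normalized Fourier matrix
`F ∈ U(n)`, and the rotated Fourier matrix `X_α ∈ U(2n)` for every `α`, are products of at most
`C n log n` two-coordinate unitaries (of the same size: there are no additional coordinates).
-/

namespace Pool.Agent.Results.MP_7fb13b_lc.AllLengths

open RotFourier

theorem result :
    ∃ C : ℝ, ∀ n : ℕ, 2 ≤ n →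
      (∃ l : List (Matrix (Fin n) (Fin n) ℂ), (∀ R ∈ l, IsTwoCoordinate R) ∧
        l.prod = dft n ∧ (l.length : ℝ) ≤ C * (n * Real.log n)) ∧
      ∀ α : ℝ, ∃ l : List (Matrix (Fin n ⊕ Fin n) (Fin n ⊕ Fin n) ℂ),
        (∀ R ∈ l, IsTwoCoordinate R) ∧ l.prod = rotX n α ∧
          (l.length : ℝ) ≤ C * (n * Real.log n) :=
  UP.main_proof

end Pool.Agent.Results.MP_7fb13b_lc.AllLengths
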