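import Pool.Agent.Lib.MP_7fb13b_lc.H35.Exact

/-!
# The rotated Fourier matrix in networks

An algorithm is given as a list of gates `(i, j, R)`, where `R` is a two-coordinate unitary acting
on the coordinates `i` and `j`.

1. Wire length: for every placement `f` of the `2n` coordinates on a line the total length of the
   gates of an algorithm for `X_α`, `sin α ≠ 0`, is at least `1/n` times the sum over all `k`, `l`
   of the distance of the coordinates `k` and `n + l`.
2. For `n = 2^L`, if the coordinates are labelled by the vertices of the cube `{0,1}^(L+1)` and all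
   gates act along edges of the cube, an algorithm for `X_α`, `sin α ≠ 0`, has at least
   `n (log₂ n + 1) / 2` steps.
3. For one labelling there is, for every `α`, such an algorithm with `n (log₂ n + 1)` steps, and
   for this labelling no algorithm for any `X_α` with `sin α ≠ 0` has fewer steps.
-/

namespace Pool.Agent.Results.MP_7fb13b_lc.HypercubeNetworks

open RotFourier

/-- The coordinates of `X_α`. -/
abbrev Coord (n : ℕ) : Type := Fin n ⊕ Fin n

/-- A gate: two coordinates and a matrix. -/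
abbrev Gate (n : ℕ) : Type := Coord n × Coord n × Matrix (Coord n) (Coord n) ℂ

/-- The list `l = [R_m, …, R_1]` of gates is an algorithm for `U`: every matrix is a unitary which
agrees with the identity outside its two coordinates, and the product is `U`. -/
def IsAlgorithm {n : ℕ} (l : List (Gate n)) (U : Matrix (Coord n) (Coord n) ℂ) : Prop :=
  (∀ g ∈ l, IsTwoAt g.2.2 g.1 g.2.1) ∧ (l.map fun g => g.2.2).prod = U

/-- The two coordinates of every gate have labels which differ in exactly one bit. -/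
def AlongCube {n M : ℕ} (φ : Coord n ≃ (Fin M → Bool)) (l : List (Gate n)) : Prop :=
  ∀ g ∈ l, hammingDist (φ g.1) (φ g.2.1) = 1

theorem result :
    (∀ n : ℕ, 1 ≤ n → ∀ α : ℝ, Real.sin α ≠ 0 → ∀ l : List (Gate n), IsAlgorithm l (rotX n α) →
      ∀ f : Coord n → ℝ, (∑ k : Fin n, ∑ m : Fin n, |f (Sum.inl k) - f (Sum.inr m)|) / n ≤
        (l.map fun g => |f g.1 - f g.2.1|).sum) ∧
    (∀ (L : ℕ) (α : ℝ), Real.sin α ≠ 0 → ∀ (φ : Coord (2 ^ L) ≃ (Fin (L + 1) → Bool))
      (l : List (Gate (2 ^ L))), IsAlgorithm l (rotX (2 ^ L) α) → AlongCube φ l →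
        (L + 1) * 2 ^ L ≤ 2 * l.length) ∧
    (∀ L : ℕ, ∃ φ : Coord (2 ^ L) ≃ (Fin (L + 1) → Bool),
      (∀ α : ℝ, ∃ l : List (Gate (2 ^ L)), IsAlgorithm l (rotX (2 ^ L) α) ∧ AlongCube φ l ∧
        l.length = (L + 1) * 2 ^ L) ∧
      (∀ α : ℝ, Real.sin α ≠ 0 → ∀ l : List (Gate (2 ^ L)), IsAlgorithm l (rotX (2 ^ L) α) →
        AlongCube φ l → (L + 1) * 2 ^ L ≤ l.length)) := by
  refine ⟨fun n hn α hα l hl f => ?_, fun L α hα φ l hl hc => ?_, fun L => ?_⟩
  · have hn' : (0 : ℝ) < n := by exact_mod_cast hn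
    rw [div_le_iff₀ hn', mul_comm]
    exact Cut.wire_length hn hα l hl.1 hl.2 f
  · exact Cut.cube_lower L hα φ l hl.1 hl.2 hc
  · refine ⟨FFT.lbl L, fun α => ?_, fun α hα l hl hc => ?_⟩
    · obtain ⟨l, h1, h2, h3, h4⟩ := FFT.cube_upper L α
      exact ⟨l, ⟨h1, h2⟩, h3, h4⟩
    · exact Cut.cube_exact L hα l hl.1 hl.2 hc

end Pool.Agent.Results.MP_7fb13b_lc.HypercubeNetworks
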