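import Pool.Agent.Lib.MP_7fb13b_lc.H35.LightMain

/-!
# The rotated Fourier matrix: a weighted form of the conjectured bound, and light algorithms

An algorithm is a list of gates `(i, j, R)`, `R` a two-coordinate unitary acting on `i` and `j`.
Let `s = sin α` and `z = log (1/s) / log (√n / s)`. A gate whose active rows (before the gate) are
`u` and `v` has the weight `(∑ |u_b|^(2-2z) + ∑ |v_b|^(2-2z))^(1/2)`.

1. The weights of the gates of any algorithm for `X_α` add up to at least
   `n log n / (12 log (1/α))`.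
2. If all gates but at most `α n log n / (96 log (1/α))` act on rows which have all but `(A α)²` of
   their mass on at most `K` coordinates, where `K ≤ n^(1 / log (1/α))`, then the algorithm has at
   least `n log n / (192 A log (1/α))` steps.
-/

namespace Pool.Agent.Results.MP_7fb13b_lc.LightRows

open RotFourier RotFourier.Light

/-- The coordinates of `X_α`. -/
abbrev Coord (n : ℕ) : Type := Fin n ⊕ Fin n

/-- A gate: two coordinates and a matrix. -/
abbrev Gate (n : ℕ) : Type := Coord n × Coord n × Matrix (Coord n) (Coord n) ℂ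

/-- The list `l = [R_m, …, R_1]` of gates is an algorithm for `U`: every matrix is a unitary which
agrees with the identity outside its two coordinates, and the product is `U`. -/
def IsAlgorithm {n : ℕ} (l : List (Gate n)) (U : Matrix (Coord n) (Coord n) ℂ) : Prop :=
  (∀ g ∈ l, IsTwoAt g.2.2 g.1 g.2.1) ∧ (l.map fun g => g.2.2).prod = U

theorem result :
    (∀ n : ℕ, 2 ≤ n → ∀ α : ℝ, 0 < α → α ≤ 1 / 4 → ∀ l : List (Gate n),
      IsAlgorithm l (rotX n α) →
        n * Real.log n / (12 * Real.log (1 / α)) ≤ totalWeight (zOf n (Real.sin α)) l) ∧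
    (∀ n : ℕ, 2 ≤ n → ∀ α : ℝ, 0 < α → α ≤ 1 / 4 → ∀ A : ℝ, 1 ≤ A → ∀ K : ℕ, 1 ≤ K →
      Real.log K * Real.log (1 / α) ≤ Real.log n → ∀ l : List (Gate n),
        IsAlgorithm l (rotX n α) →
          (heavyGates K (A * α) l : ℝ) ≤ α * (n * Real.log n) / (96 * Real.log (1 / α)) →
            n * Real.log n / (192 * A * Real.log (1 / α)) ≤ l.length) :=
  ⟨fun _ hn _ h0 h1 l hl => weighted' (by omega) h0 h1 l hl.1 hl.2,
    fun _ hn _ h0 h1 _ hA _ hK hKn l hl hh => light_bound hn h0 h1 hA hK hKn l hl.1 hl.2 hh⟩

end Pool.Agent.Results.MP_7fb13b_lc.LightRows
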