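import Pool.Agent.Lib.MP_7fb13b_lc.H31.Final

/-!
# A lower bound `c α^(2/3) n log n` for the rotated Fourier matrix

Every factorization of `X_α = cos α · Id + sin α · G` (with `G = [[0, F], [-F*, 0]]`, `F` the
`n × n` normalized Fourier matrix) into two-coordinate unitaries has at least
`c α^(2/3) n log n` factors, for all `n ≥ 2` and all `0 < α ≤ α₀`.
-/

namespace Pool.Agent.Results.MP_7fb13b_lc.PowerTwoThirds

open RotFourier

theorem result :
    ∃ c : ℝ, 0 < c ∧ ∃ α₀ : ℝ, 0 < α₀ ∧ ∀ α : ℝ, 0 < α → α ≤ α₀ → ∀ n : ℕ, 2 ≤ n →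
      ∀ l : List (Matrix (Fin n ⊕ Fin n) (Fin n ⊕ Fin n) ℂ), (∀ R ∈ l, IsTwoCoordinate R) →
        l.prod = rotX n α → c * α ^ (2 / 3 : ℝ) * (n * Real.log n) ≤ l.length :=
  H31.main_bound

end Pool.Agent.Results.MP_7fb13b_lc.PowerTwoThirds
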